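import Pool.Agent.QFO.Greedy
import Pool.Agent.QFO.Main

/-!
# `Q(m)` for every `m`

`Q(m)` is the maximum, over the graphs `G` with `m` edges, of the minimum `q(G)` of
`e(V₁) ^ 2 + e(V₂) ^ 2` over the bipartitions of `G`. Let `T, D, B : ℤ → ℤ` be given by the recursion

* `T(m) = D(m) = B(m) = -m` for `m ≤ 0`; for `m ≥ 1` (with `r = m - C(n,2)`, which may be negative):
* `T(m)` is the minimum of `⌊n/2⌋ + T(r)` over `n ≥ 2`; the `n` with equality are called optimal;
* `B(m)` is the minimum over the optimal `n` of `B(r)` (`n` even), `(n-1)/2 + B(r)` (`n` odd);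
* `D(m)` is the maximum over the optimal `n` of `D(r)` (`n` even), `(n-1)/2 - B(r)` (`n` odd), except
  that `D(8) = 2`.

Then `8 Q(m) = (m - T(m)) ^ 2 + 4 D(m) ^ 2` for every `m ≥ 1`. (`(m + T(m)) / 2` is the least Max-Cut of
the graphs with `m` edges, `D(m)` is the largest possible least imbalance of their maximum cuts.)

The functions `T` and `D` are also given in closed form: `T(m)` is the least cost
`y + ∑ ⌊n/2⌋` of a list of integers `n ≥ 2` with `∑ C(n,2) = m + y`, `y ≥ 0`, and `D(m)` is the greatest of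
the numbers `y` (for a list of least cost, all `n` even), `a - 1 - y - ∑ (n-1)/2` (for a list of least
cost and an odd member `a`; the sum is over the odd `n`), and `2` if there is a list of even `n ≥ 2` with
`8 + ∑ C(n,2) = m` and `4 + ∑ n/2 = T(m)`.

For `m = C(n,2) + r`, `0 ≤ r < n`, `n ≥ 700`, only `n` and `n + 1` have to be considered in the recursion:
with `A = ⌊n/2⌋ + T(r)` and `A' = ⌊(n+1)/2⌋ + n - r`, `T(m) = min A A'`, and `D(m)`, `B(m)` are given by
the rule for `n` if `A < A'`, by the rule for `n + 1` if `A' < A`, and are the larger (smaller) of the two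
values if `A = A'` (`GreedyAt`).
-/

set_option autoImplicit false

namespace Pool.Agent.Results.MP_710317_co.ExactFormula

open Pool.Agent.MP_710317_co Pool.Agent.MXC Pool.Agent.QFO

theorem result : ∃ T D B : ℤ → ℤ,
    -- the recursion: `T`, `D`, `B` satisfy it, and no other functions do
    TDB T D B ∧
    (∀ T' D' B' : ℤ → ℤ, TDB T' D' B' → T' = T ∧ D' = D ∧ B' = B) ∧
    -- the closed form of `T` and `D`
    (∀ m : ℤ,
      IsLeast {x : ℤ | ∃ (L : List ℕ) (y : ℕ), (∀ n ∈ L, 2 ≤ n) ∧ (chSum L : ℤ) = m + y ∧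
        x = halfSum L + y} (T m) ∧
      IsGreatest {x : ℤ | DNum (T m) m x} (D m)) ∧
    -- the greedy rule: for `m = C(n,2) + r`, `r < n`, only `n` and `n + 1` have to be considered
    (∀ n r : ℕ, 700 ≤ n → r < n → Grd.GreedyAt T D B n r) ∧
    -- the value of `Q(m)`
    ∀ m : ℕ, 1 ≤ m → ∃ q : ℕ, IsGreatest (qvalues m) q ∧
      8 * (q : ℤ) = (m - T m) ^ 2 + 4 * (D m) ^ 2 :=
  ⟨T, Df, Bf, TDB_exists QD_all,
    fun T' D' B' h => ⟨funext fun m => (TDB_unique h (TDB_exists QD_all) m).1,
      funext fun m => (TDB_unique h (TDB_exists QD_all) m).2.1,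
      funext fun m => (TDB_unique h (TDB_exists QD_all) m).2.2⟩,
    fun m => ⟨T_closed m, D_closed QD_all m⟩, fun _ _ hn hr => Grd.greedyAt QD_all hn hr,
    (full_answer QD_all).2 T Df Bf (TDB_exists QD_all)⟩

end Pool.Agent.Results.MP_710317_co.ExactFormula
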