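import Pool.Agent.MP_710317_co.Rec.Final

/-!
# The recursion for `Q(m)`, for all `m ≥ C(10000, 2)`

For a graph `G` with marked vertex sets `K 0, …, K (l-1)` all numbers of edges are counted in
excess over the complete graphs on the marked sets (`exIn`, `exCut`; for `l = 0` these are the
plain numbers of edges).  `fl l r` is the least possible largest cut at total `r`, `Dl l r` the
largest (over the extremal graphs) least (over the maximum cuts) difference of the numbers of
edges inside the two parts, and `Bl l r` the least largest difference.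

For all `m ≥ C(10000, 2)` the largest value of the least sum of the squares of the numbers of
edges inside the two parts is `((m - f)^2 + D^2) / 2` with `f = fl 0 m` and `D = Dl 0 m`, and
`(fl, Dl, Bl)` at level `l` and `m = C(n, 2) + r`, `r < n`, is given by its values at level `l + 1`
and `r`.
-/

namespace Pool.Agent.Results.MP_710317_co.LargeRecursion

open Pool.Agent.MP_710317_co Pool.Agent.MP_710317_co.Rec

theorem result :
    (∀ m : ℕ, (10000 : ℕ).choose 2 ≤ m →
      fl 0 m ≤ m ∧ ∃ q, IsGreatest (qvalues m) q ∧ 2 * q = (m - fl 0 m) ^ 2 + (Dl 0 m) ^ 2) ∧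
    (∀ l n r : ℕ, 10000 ≤ n → 2 * l ≤ n → r < n →
      fl l (n.choose 2 + r) = n ^ 2 / 4 + min ((n + 1) / 2) (fl (l + 1) r) ∧
      (fl (l + 1) r < (n + 1) / 2 →
        (Even n → Dl l (n.choose 2 + r) = Dl (l + 1) r ∧
          Bl l (n.choose 2 + r) = Bl (l + 1) r) ∧
        (Odd n → Dl l (n.choose 2 + r) + Bl (l + 1) r = (n - 1) / 2 ∧
          Bl l (n.choose 2 + r) = (n - 1) / 2 + Bl (l + 1) r)) ∧
      ((n + 1) / 2 < fl (l + 1) r →
        (Odd n → Dl l (n.choose 2 + r) = n - r ∧ Bl l (n.choose 2 + r) = n - r) ∧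
        (Even n → Dl l (n.choose 2 + r) + (n - r) = n / 2 ∧
          Bl l (n.choose 2 + r) = n / 2 + (n - r))) ∧
      (fl (l + 1) r = (n + 1) / 2 →
        (Even n → Dl l (n.choose 2 + r) + (n - r) = n / 2 ∧
          Bl l (n.choose 2 + r) = Bl (l + 1) r) ∧
        (Odd n → Dl l (n.choose 2 + r) + Bl (l + 1) r = (n - 1) / 2 ∧
          Bl l (n.choose 2 + r) = n - r))) ∧
    (∀ l k : ℕ, 1 ≤ k →
      fl l (k.choose 2) = k ^ 2 / 4 ∧
      (Even k → Dl l (k.choose 2) = 0 ∧ Bl l (k.choose 2) = 0) ∧
      (Odd k → Dl l (k.choose 2) = (k - 1) / 2 ∧ Bl l (k.choose 2) = (k - 1) / 2)) :=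
  ⟨fun m hm => ⟨(qnum2 m hm).1, q_formula m hm⟩,
    fun l n r hn hl hr => main l n r hn hl hr,
    fun l k hk => base_vals l k hk⟩

end Pool.Agent.Results.MP_710317_co.LargeRecursion
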