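import Pool.Agent.MXC.Fin
import Pool.Agent.MXC.Rule

/-!
# The least Max-Cut of the graphs with `m` edges, for every `m`

`mc m` is the least value of `∑ ⌊B ^ 2 / 4⌋` over all lists of numbers `B` with
`∑ C(B, 2) ≥ m`, i.e. the least largest cut of the disjoint unions of complete graphs with at least
`m` edges.

(1) `mc m` is the least possible value of the largest cut of a graph with exactly `m` edges.
(2) The same lower bound holds for all integer weights of total weight `m` (negative weights are
allowed).
(3) `mc m` is also the least excess cut `fl l m` over `l` marked complete graphs, for every `l`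
(the first of the three functions in the recursion for `Q(m)`).
(4) The rule `f(C(n,2) + r) = ⌊n ^ 2 / 4⌋ + min (⌈n / 2⌉, f(r))`, `r < n`, of Alon and Halperin holds for
all `n`, except for `m = 99, 1068, 2764, 4827`, where the value is smaller by one.
-/

namespace Pool.Agent.Results.MP_710317_co.LeastMaxCut

open Pool.Agent.MP_710317_co Pool.Agent.MP_710317_co.Rec Pool.Agent.MXC

theorem result :
    (∀ m : ℕ, IsLeast {c | ∃ (N : ℕ) (G : SimpleGraph (Fin N)), G.edgeSet.ncard = m ∧
      IsGreatest (Set.range (cutSize G)) c} (mc m)) ∧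
    (∀ (m N : ℕ) (w : Fin N → Fin N → ℤ), (∀ i j, w i j = w j i) → (∀ i, w i i = 0) →
      ∑ i, ∑ j, w i j = 2 * (m : ℤ) →
      ∃ S : Finset (Fin N), (mc m : ℤ) ≤ ∑ i ∈ S, ∑ j ∈ Sᶜ, w i j) ∧
    (∀ l m : ℕ, fl l m = mc m) ∧
    (∀ n r : ℕ, 1 ≤ n → r < n →
      mc (n.choose 2 + r) + (if Exc (n.choose 2 + r) then 1 else 0) =
        n ^ 2 / 4 + min ((n + 1) / 2) (mc r)) :=
  ⟨least_maxcut, fun m _ w h1 h2 h3 => weighted m w h1 h2 h3, fl_eq,
    fun n r hn hr => mc_rule n r hn hr⟩

end Pool.Agent.Results.MP_710317_co.LeastMaxCut
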