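import Pool.Agent.MP_710317_co.Main

/-!
# The values of `Q(m)` at the numbers of edges of the complete graphs

For `m = n (n - 1) / 2`, `n ≥ 2`, the largest value of the least sum of the squares of the numbers
of edges inside the two parts of a bipartition, over all graphs with `m` edges, is attained by the
complete graph on `n` vertices, and for `n ≠ 4` only by this graph (plus isolated vertices).
-/

namespace Pool.Agent.Results.MP_710317_co.TriangularNumbers

open Pool.Agent.MP_710317_co

/-- `inside G U` is the number of edges of `G` with both endpoints in `U`; `qval G` is the least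
value of `inside G U ^ 2 + inside G Uᶜ ^ 2` over all sets `U` of vertices; `qvalues m` is the set of
the values `qval G` for the graphs `G` with `m` edges. -/
theorem result (n : ℕ) (hn : 2 ≤ n) :
    IsGreatest (qvalues (n.choose 2)) ((n / 2).choose 2 ^ 2 + ((n + 1) / 2).choose 2 ^ 2) ∧
    (n ≠ 4 → ∀ (N : ℕ) (G : SimpleGraph (Fin N)), G.edgeSet.ncard = n.choose 2 →
      (qval G = (n / 2).choose 2 ^ 2 + ((n + 1) / 2).choose 2 ^ 2 ↔
        ∃ S : Set (Fin N), S.ncard = n ∧ ∀ u v, G.Adj u v ↔ u ≠ v ∧ u ∈ S ∧ v ∈ S)) := by
  have hord : ∀ (N : ℕ) (G : SimpleGraph (Fin N)), G.edgeSet.ncard = n.choose 2 →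
      ord G Finset.univ = (n : ℤ) * (n - 1) := by
    intro N G hG
    rw [ord_univ_eq G _ hG, two_choose]
  refine ⟨⟨?_, ?_⟩, ?_⟩
  · refine ⟨n, ⊤, ?_, ?_⟩
    · rw [← SimpleGraph.coe_edgeFinset, Set.ncard_coe_finset,
        SimpleGraph.card_edgeFinset_top_eq_card_choose_two, Fintype.card_fin]
    · have h := qval_complete (⊤ : SimpleGraph (Fin n)) Finset.univ (by intro u v; simp)
      rw [h, Finset.card_univ, Fintype.card_fin]
      rfl
  · rintro x ⟨N, G, hG, rfl⟩
    exact (upper G n hn (hord N G hG)).1
  · intro h4 N G hG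
    constructor
    · intro hq
      obtain ⟨S, hS, hadj⟩ := (upper G n hn (hord N G hG)).2 h4 hq
      refine ⟨(S : Set (Fin N)), ?_, ?_⟩
      · rw [Set.ncard_coe_finset, hS]
      · intro u v
        rw [hadj]
        simp
    · rintro ⟨S, hS, hadj⟩
      classical
      have h := qval_complete G S.toFinset (by
        intro u v
        rw [hadj]
        simp)
      rw [h, ← Set.ncard_eq_toFinset_card', hS]
      rfl

end Pool.Agent.Results.MP_710317_co.TriangularNumbers
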